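import Pool.Agent.W737.SB.Defs

set_option autoImplicit false

open Metric Set

namespace Pool.Agent.W346.SB

open Pool.Agent.W737.SB

lemma aut_ray (h1 : S_aut) {n : ℕ} (u : V n) (hu : ‖u‖ = 1) (s s' : ℝ) (hs : 0 ≤ s) (hss : s ≤ s')
    (hs' : s' < 1) (h35 : 5 * (s' - s) ≤ 3 * (1 - s * s')) :
    ‖aut ((s' : ℂ) • u) ((s : ℂ) • u)‖ ≤ 3 / 5 := by
  have hna : ‖(s' : ℂ) • u‖ = s' := by
    rw [norm_smul, hu, mul_one, Complex.norm_real, Real.norm_of_nonneg (by linarith)]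
  have hnx : ‖(s : ℂ) • u‖ = s := by
    rw [norm_smul, hu, mul_one, Complex.norm_real, Real.norm_of_nonneg hs]
  have hx : (s : ℂ) • u ∈ ball (0 : V n) 1 := by
    rw [mem_ball_zero_iff, hnx]
    linarith
  have h2 := (h1 n ((s' : ℂ) • u) (by rw [hna]; exact hs')).2.2.2.2.2.1 _ hx
  have hin : (inner ℂ ((s' : ℂ) • u) ((s : ℂ) • u) : ℂ) = ((s * s' : ℝ) : ℂ) := by
    rw [inner_smul_left, inner_smul_right, inner_self_eq_norm_sq_to_K, hu]
    simp only [Complex.conj_ofReal, Complex.ofReal_mul]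
    norm_num
    ring
  have hss1 : s * s' < 1 := by nlinarith
  have hn1 : ‖(1 - (inner ℂ ((s' : ℂ) • u) ((s : ℂ) • u) : ℂ))‖ = 1 - s * s' := by
    rw [hin]
    have : (1 : ℂ) - ((s * s' : ℝ) : ℂ) = ((1 - s * s' : ℝ) : ℂ) := by
      push_cast
      ring
    rw [this, Complex.norm_real, Real.norm_of_nonneg (by linarith)]
  rw [hn1, hna, hnx] at h2
  have h3 : 0 < 1 - s * s' := by linarith
  have h4 : ‖aut ((s' : ℂ) • u) ((s : ℂ) • u)‖ ^ 2 = (s' - s) ^ 2 / (1 - s * s') ^ 2 := by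
    have h5 : ‖aut ((s' : ℂ) • u) ((s : ℂ) • u)‖ ^ 2 =
        1 - (1 - s' ^ 2) * (1 - s ^ 2) / (1 - s * s') ^ 2 := by linarith
    have hne : (1 - s * s') ^ 2 ≠ 0 := by positivity
    rw [h5, eq_div_iff hne, sub_mul, div_mul_cancel₀ _ hne]
    ring
  have h5 : (s' - s) ^ 2 / (1 - s * s') ^ 2 ≤ (3 / 5) ^ 2 := by
    rw [← div_pow]
    refine pow_le_pow_left₀ (div_nonneg (by linarith) h3.le) ?_ 2
    rw [div_le_div_iff₀ h3 (by norm_num)]
    linarith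
  rw [← h4] at h5
  exact le_of_sq_le_sq h5 (by norm_num)

/-- the frame at another point -/
lemma fr_move (h1 : S_aut) {n : ℕ} {Ω : Set (V n)} {f F : V n → V n} {z : V n} (hf : Fr Ω f F z)
    (a : V n) (ha : ‖a‖ < 1) : Fr Ω (f ∘ aut a) (aut a ∘ F) (f a) := by
  obtain ⟨g1, g2, g3, g4, g5, _⟩ := h1 n a ha
  refine ⟨hf.hf.comp g1 g2, hf.hfm.comp g2, g1.comp hf.hF hf.hFm, g2.comp hf.hFm, ?_, ?_, ?_⟩
  · intro ζ hζ
    show aut a (F (f (aut a ζ))) = ζ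
    rw [hf.left _ (g2 hζ), g3 ζ hζ]
  · intro w hw
    show f (aut a (aut a (F w))) = w
    rw [g3 _ (hf.hFm hw), hf.right w hw]
  · show f (aut a 0) = f a
    rw [g4]

/-- the chain of Harnack steps on a ray -/
lemma chain (h1 : S_aut) {n : ℕ} {Ω : Set (V n)} {p : V n} {h : V n → ℝ} {r₀ r c : ℝ}
    (hc : 0 < c) (hc1 : c ≤ 1)
    (H : ∀ z ∈ Ω, ‖z - p‖ < r → ∀ f F : V n → V n, Fr Ω f F z → ∀ x, ‖x‖ ≤ 3 / 5 →
      f x ∈ ball p r₀ ∧ c * h z ≤ h (f x))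
    {f F : V n → V n} {z : V n} (hf : Fr Ω f F z) (hz : 0 ≤ h z) (u : V n) (hu : ‖u‖ = 1) :
    ∀ k : ℕ, ∀ s : ℝ, 0 ≤ s → s < 1 → (∀ t : ℝ, 0 ≤ t → t ≤ s → ‖f ((t : ℂ) • u) - p‖ < r) →
      1 + s ≤ 4 ^ k * (1 - s) → c ^ k * h (f ((s : ℂ) • u)) ≤ h z := by
  have hstep : ∀ s s' : ℝ, 0 ≤ s → s ≤ s' → s' < 1 → ‖f ((s' : ℂ) • u) - p‖ < r →
      5 * (s' - s) ≤ 3 * (1 - s * s') → c * h (f ((s' : ℂ) • u)) ≤ h (f ((s : ℂ) • u)) := by
    intro s s' hs hss hs' hr h35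
    have hna : ‖(s' : ℂ) • u‖ = s' := by
      rw [norm_smul, hu, mul_one, Complex.norm_real, Real.norm_of_nonneg (by linarith)]
    have hnx : ‖(s : ℂ) • u‖ = s := by
      rw [norm_smul, hu, mul_one, Complex.norm_real, Real.norm_of_nonneg hs]
    have ha : (s' : ℂ) • u ∈ ball (0 : V n) 1 := by
      rw [mem_ball_zero_iff, hna]
      exact hs'
    have hx : (s : ℂ) • u ∈ ball (0 : V n) 1 := by
      rw [mem_ball_zero_iff, hnx]
      linarith
    have h3 := (H _ (hf.hfm ha) hr _ _ (fr_move h1 hf _ (by rw [hna]; exact hs'))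
      (aut ((s' : ℂ) • u) ((s : ℂ) • u)) (aut_ray h1 u hu s s' hs hss hs' h35)).2
    have h4 : (f ∘ aut ((s' : ℂ) • u)) (aut ((s' : ℂ) • u) ((s : ℂ) • u)) = f ((s : ℂ) • u) := by
      show f (aut ((s' : ℂ) • u) (aut ((s' : ℂ) • u) ((s : ℂ) • u))) = f ((s : ℂ) • u)
      rw [(h1 n ((s' : ℂ) • u) (by rw [hna]; exact hs')).2.2.1 _ hx]
    rw [h4] at h3
    exact h3
  have hf0 : f (((0 : ℝ) : ℂ) • u) = z := by
    rw [Complex.ofReal_zero, zero_smul]
    exact hf.base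
  intro k
  induction k with
  | zero =>
    intro s hs0 hs1 _ hk
    have h2 : s = 0 := by
      rw [pow_zero, one_mul] at hk
      linarith
    rw [h2, hf0, pow_zero, one_mul]
  | succ k ih =>
    intro s hs0 hs1 hr hk
    by_cases h2 : s ≤ 3 / 5
    · have h3 := hstep 0 s le_rfl hs0 hs1 (hr s hs0 le_rfl) (by linarith)
      rw [hf0] at h3
      have h4 : c ^ k ≤ 1 := pow_le_one₀ hc.le hc1
      have h5 : 0 < c ^ k := by positivity
      rw [pow_succ, mul_assoc]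
      calc c ^ k * (c * h (f ((s : ℂ) • u))) ≤ c ^ k * h z := mul_le_mul_of_nonneg_left h3 h5.le
        _ ≤ 1 * h z := mul_le_mul_of_nonneg_right h4 hz
        _ = h z := one_mul _
    · push Not at h2
      have hd : 0 < 5 - 3 * s := by linarith
      set τ : ℝ := (5 * s - 3) / (5 - 3 * s) with hτ
      have hτ0 : 0 ≤ τ := div_nonneg (by linarith) hd.le
      have hτs : τ ≤ s := by
        rw [hτ, div_le_iff₀ hd]
        nlinarith
      have hτ' : τ * (5 - 3 * s) = 5 * s - 3 := by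
        rw [hτ]
        exact div_mul_cancel₀ _ hd.ne'
      have h3 := hstep τ s hτ0 hτs hs1 (hr s hs0 le_rfl) (by
        have : 5 * (s - τ) - 3 * (1 - τ * s) = 5 * s - 3 - τ * (5 - 3 * s) := by ring
        rw [hτ'] at this
        linarith)
      have h4 := ih τ hτ0 (by linarith) (fun t ht htτ => hr t ht (by linarith)) (by
        have h6 : (1 - τ) * (5 - 3 * s) = 8 * (1 - s) := by
          have : (1 - τ) * (5 - 3 * s) = (5 - 3 * s) - τ * (5 - 3 * s) := by ring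
          rw [this, hτ']
          ring
        have h7 : (1 + τ) * (5 - 3 * s) = 2 * (1 + s) := by
          have : (1 + τ) * (5 - 3 * s) = (5 - 3 * s) + τ * (5 - 3 * s) := by ring
          rw [this, hτ']
          ring
        have h8 : (1 + τ) * (5 - 3 * s) ≤ (4 ^ k * (1 - τ)) * (5 - 3 * s) := by
          rw [h7, mul_assoc, h6]
          rw [pow_succ] at hk
          linarith
        exact le_of_mul_le_mul_right h8 hd)
      rw [pow_succ, mul_assoc]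
      have h5 : 0 < c ^ k := by positivity
      exact (mul_le_mul_of_nonneg_left h3 h5.le).trans h4

/-- derivative of the inverse along the frame -/
lemma fderiv_id {n : ℕ} {Ω : Set (V n)} (hΩ : IsOpen Ω) {f F : V n → V n} {z : V n}
    (hf : Fr Ω f F z) (x : V n) (hx : x ∈ ball (0 : V n) 1) (u : V n) :
    fderiv ℂ F (f x) (fderiv ℂ f x u) = u := by
  have h1 : HasFDerivAt f (fderiv ℂ f x) x :=
    (hf.hf.differentiableAt (isOpen_ball.mem_nhds hx)).hasFDerivAt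
  have h2 : HasFDerivAt F (fderiv ℂ F (f x)) (f x) :=
    (hf.hF.differentiableAt (hΩ.mem_nhds (hf.hfm hx))).hasFDerivAt
  have h3 := h2.comp x h1
  have h4 : (F ∘ f) =ᶠ[nhds x] id := by
    filter_upwards [isOpen_ball.mem_nhds hx] with ζ hζ
    exact hf.left ζ hζ
  have h5 : HasFDerivAt (F ∘ f) (ContinuousLinearMap.id ℂ (V n)) x :=
    (hasFDerivAt_id x).congr_of_eventuallyEq h4
  have h6 := h3.unique h5
  have h7 := congrArg (fun L => L u) h6
  simpa using h7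

/-- the metric along a ray -/
lemma kap_ray {n : ℕ} {Ω : Set (V n)} (hΩ : IsOpen Ω) {f F : V n → V n} {z : V n}
    (hf : Fr Ω f F z) (u : V n) (hu : ‖u‖ = 1) (s : ℝ) (hs : 0 ≤ s) (hs1 : s < 1) :
    kap F (f ((s : ℂ) • u)) (fderiv ℂ f ((s : ℂ) • u) u) = 1 / (1 - s ^ 2) ^ 2 := by
  have hnx : ‖(s : ℂ) • u‖ = s := by
    rw [norm_smul, hu, mul_one, Complex.norm_real, Real.norm_of_nonneg hs]
  have hx : (s : ℂ) • u ∈ ball (0 : V n) 1 := by
    rw [mem_ball_zero_iff, hnx]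
    exact hs1
  unfold kap
  rw [fderiv_id hΩ hf _ hx, hf.left _ hx, hnx, hu]
  have hin : ‖(inner ℂ ((s : ℂ) • u) u : ℂ)‖ = s := by
    rw [inner_smul_left, inner_self_eq_norm_sq_to_K, hu]
    simp only [Complex.conj_ofReal]
    norm_num
    exact hs
  rw [hin]
  have h2 : 0 < 1 - s ^ 2 := by nlinarith
  field_simp
  ring

lemma hasDeriv_ray {n : ℕ} {Ω : Set (V n)} {f F : V n → V n} {z : V n}
    (hf : Fr Ω f F z) (u : V n) (hu : ‖u‖ = 1) (s : ℝ) (hs : 0 ≤ s) (hs1 : s < 1) :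
    HasDerivAt (fun t : ℝ => f ((t : ℂ) • u)) (fderiv ℂ f ((s : ℂ) • u) u) s := by
  have hnx : ‖(s : ℂ) • u‖ = s := by
    rw [norm_smul, hu, mul_one, Complex.norm_real, Real.norm_of_nonneg hs]
  have hx : (s : ℂ) • u ∈ ball (0 : V n) 1 := by
    rw [mem_ball_zero_iff, hnx]
    exact hs1
  have h1 : HasFDerivAt f (fderiv ℂ f ((s : ℂ) • u)) ((s : ℂ) • u) :=
    (hf.hf.differentiableAt (isOpen_ball.mem_nhds hx)).hasFDerivAt
  have h2 : HasDerivAt (fun t : ℝ => ((t : ℂ) • u)) u s := by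
    have h3 : HasDerivAt (fun t : ℝ => (t : ℂ)) 1 s := Complex.ofRealCLM.hasDerivAt
    have h4 := h3.smul_const u
    simpa using h4
  have h3 := (h1.restrictScalars ℝ).comp_hasDerivAt s h2
  exact h3

theorem t_ext (h1 : S_aut) (h2 : S_kap) : S_ext := by
  intro n Ω ρ p ν h r₀ C hD hT r c hr hrr hc hH hM
  have hΩ : IsOpen Ω := by
    rw [hD.eq]
    exact isOpen_lt hD.smooth.continuous continuous_const
  -- a power of one fourth below c
  obtain ⟨B, hB⟩ : ∃ B : ℕ, (1 / 4 : ℝ) ^ B < c := exists_pow_lt_of_lt_one hc (by norm_num)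
  set q : ℝ := (1 / 4 : ℝ) ^ B with hq
  have hq0 : 0 < q := by positivity
  have hq1 : q ≤ 1 := pow_le_one₀ (by norm_num) (by norm_num)
  have hpos : ∀ w ∈ Ω, ‖w - p‖ < r → 0 < h w := by
    intro w hw hwr
    have hwb : w ∈ ball p r₀ := by
      rw [mem_ball_iff_norm]
      linarith
    have hw' := hw
    rw [hD.eq] at hw'
    exact (hT.sign w hwb).1 hw'
  have hH' : ∀ z ∈ Ω, ‖z - p‖ < r → ∀ f F : V n → V n, Fr Ω f F z → ∀ x, ‖x‖ ≤ 3 / 5 →
      f x ∈ ball p r₀ ∧ q * h z ≤ h (f x) := by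
    intro z hz hzr f F hf x hx
    obtain ⟨h3, h4⟩ := hH z hz hzr f F hf x hx
    refine ⟨h3, le_trans ?_ h4⟩
    exact mul_le_mul_of_nonneg_right hB.le (hpos z hz hzr).le
  -- constants
  set K : ℝ := c⁻¹ * (16 : ℝ) ^ (3 * B) * 2 ^ 8 * 4 ^ 8 with hK
  have hK0 : 0 < K := by positivity
  refine ⟨4 * B + 35, min (min (1 / 4) r) (1 / K), by positivity, ?_⟩
  intro s hs hs1 y hy hys f F hf x hx
  have hs4 : s < 1 / 4 := lt_of_lt_of_le hs1 ((min_le_left _ _).trans (min_le_left _ _))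
  have hsr : s < r := lt_of_lt_of_le hs1 ((min_le_left _ _).trans (min_le_right _ _))
  have hsK : s < 1 / K := lt_of_lt_of_le hs1 (min_le_right _ _)
  have hs9 : s ^ 9 ≤ s := pow_le_of_le_one hs.le (by linarith) (by norm_num)
  have hs90 : 0 < s ^ 9 := by positivity
  have hy9 : y ≤ s ^ 9 / 4 := by
    have h3 : s ^ (4 * B + 35) ≤ s ^ 10 :=
      pow_le_pow_of_le_one hs.le (by linarith) (by omega)
    have h4 : s ^ 10 = s ^ 9 * s := pow_succ s 9
    have h5 : s ^ 9 * s ≤ s ^ 9 * (1 / 4) := mul_le_mul_of_nonneg_left hs4.le hs90.le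
    linarith
  have hyr : y < r := by linarith
  -- the base point
  set z : V n := p - (y : ℂ) • ν with hz
  have hzp : ‖z - p‖ = y := by
    rw [hz]
    have : p - (y : ℂ) • ν - p = -((y : ℂ) • ν) := by abel
    rw [this, norm_neg, norm_smul, hT.hν, mul_one, Complex.norm_real, Real.norm_of_nonneg hy.le]
  have hpb : p ∈ ball p r₀ := mem_ball_self hT.r0
  have hzb : z ∈ ball p r₀ := by
    rw [mem_ball_iff_norm, hzp]
    linarith
  have hhz : h z = y := by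
    have h3 := hT.shift p hpb (-y) (by
      have : p + ((-y : ℝ) : ℂ) • ν = z := by
        rw [hz]
        push_cast
        rw [neg_smul]
        abel
      rw [this]
      exact hzb)
    have h4 : p + ((-y : ℝ) : ℂ) • ν = z := by
      rw [hz]
      push_cast
      rw [neg_smul]
      abel
    rw [h4, (hT.zero p hpb).1 hT.hp] at h3
    linarith
  have hzΩ : z ∈ Ω := by
    rw [hD.eq]
    exact (hT.sign z hzb).2 (by rw [hhz]; exact hy)
  by_cases hx0 : x = 0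
  · rw [hx0, hf.base, hzp]
    linarith
  have hxn : 0 < ‖x‖ := norm_pos_iff.2 hx0
  set u : V n := (((‖x‖)⁻¹ : ℝ) : ℂ) • x with hu'
  have hu : ‖u‖ = 1 := by
    rw [hu', norm_smul, Complex.norm_real, Real.norm_of_nonneg (by positivity)]
    exact inv_mul_cancel₀ hxn.ne'
  have hxu : ((‖x‖ : ℝ) : ℂ) • u = x := by
    rw [hu', smul_smul, ← Complex.ofReal_mul, mul_inv_cancel₀ hxn.ne', Complex.ofReal_one, one_smul]
  have hs40 : 0 < s ^ 4 := by positivity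
  have hs41 : s ^ 4 ≤ 1 := pow_le_one₀ hs.le (by linarith)
  -- the number of steps
  obtain ⟨k, hk1, hk2⟩ : ∃ k : ℕ, 4 / s ^ 4 ≤ 4 ^ k ∧ (4 : ℝ) ^ k ≤ 16 / s ^ 4 := by
    obtain ⟨j, hj1, hj2⟩ := exists_nat_pow_near (x := 4 / s ^ 4) (y := (4 : ℝ)) (by
      rw [le_div_iff₀ hs40]
      linarith) (by norm_num)
    refine ⟨j + 1, hj2.le, ?_⟩
    rw [pow_succ]
    calc (4 : ℝ) ^ j * 4 ≤ 4 / s ^ 4 * 4 := mul_le_mul_of_nonneg_right hj1 (by norm_num)
      _ = 16 / s ^ 4 := by ring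
  set γ : ℝ → V n := fun t => f ((t : ℂ) • u) with hγ
  have hxle : ‖x‖ < 1 := by linarith
  -- derivative bound
  have hder : ∀ σ : ℝ, 0 ≤ σ → σ ≤ ‖x‖ → (∀ t : ℝ, 0 ≤ t → t ≤ σ → ‖γ t - p‖ < r) →
      ‖fderiv ℂ f ((σ : ℂ) • u) u‖ ≤ s ^ 9 / 4 := by
    intro σ hσ0 hσx hσr
    have hσ1 : σ < 1 := by linarith
    have hσ2 : s ^ 4 / 2 ≤ 1 - σ := by linarith
    have hnx : ‖(σ : ℂ) • u‖ = σ := by
      rw [norm_smul, hu, mul_one, Complex.norm_real, Real.norm_of_nonneg hσ0]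
    have hmem : (σ : ℂ) • u ∈ ball (0 : V n) 1 := by
      rw [mem_ball_zero_iff, hnx]
      exact hσ1
    have h3 : q ^ k * h (γ σ) ≤ y := by
      have h4 := chain h1 hq0 hq1 hH' hf (by rw [hhz]; exact hy.le) u hu k σ hσ0 hσ1 hσr (by
        have h5 : 4 / s ^ 4 * (1 - σ) ≤ 4 ^ k * (1 - σ) :=
          mul_le_mul_of_nonneg_right hk1 (by linarith)
        have h6 : 4 / s ^ 4 * (s ^ 4 / 2) ≤ 4 / s ^ 4 * (1 - σ) :=
          mul_le_mul_of_nonneg_left hσ2 (by positivity)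
        have h7 : 4 / s ^ 4 * (s ^ 4 / 2) = 2 := by
          field_simp
          norm_num
        linarith)
      rw [hhz] at h4
      exact h4
    have hγΩ : γ σ ∈ Ω := hf.hfm hmem
    have hγr := hσr σ hσ0 le_rfl
    have hγ0 : 0 < h (γ σ) := hpos _ hγΩ hγr
    -- bound of the height
    have h4 : h (γ σ) ≤ (16 / s ^ 4) ^ B * y := by
      have h5 : q ^ k * (4 ^ k) ^ B = 1 := by
        rw [hq, ← pow_mul, ← pow_mul, mul_comm k B, ← mul_pow]
        norm_num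
      have h6 : h (γ σ) ≤ (4 ^ k) ^ B * y := by
        calc h (γ σ) = (q ^ k * (4 ^ k) ^ B) * h (γ σ) := by rw [h5, one_mul]
          _ = (4 ^ k) ^ B * (q ^ k * h (γ σ)) := by ring
          _ ≤ (4 ^ k) ^ B * y := mul_le_mul_of_nonneg_left h3 (by positivity)
      refine h6.trans (mul_le_mul_of_nonneg_right ?_ hy.le)
      exact pow_le_pow_left₀ (by positivity) hk2 B
    -- metric
    have h5 := hM (γ σ) hγΩ hγr (fderiv ℂ f ((σ : ℂ) • u) u)
    have h6 : Pool.Agent.W737.SQ.Car Ω (γ σ) (fderiv ℂ f ((σ : ℂ) • u) u) ^ 2 =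
        1 / (1 - σ ^ 2) ^ 2 := by
      rw [h2 n Ω f F z hΩ hf (γ σ) hγΩ]
      exact kap_ray hΩ hf u hu σ hσ0 hσ1
    have h7 : Pool.Agent.W737.SQ.Car Ω (γ σ) (fderiv ℂ f ((σ : ℂ) • u) u) ^ 8 ≤
        (2 / s ^ 4) ^ 8 := by
      have h8 : Pool.Agent.W737.SQ.Car Ω (γ σ) (fderiv ℂ f ((σ : ℂ) • u) u) ^ 8 =
          (1 / (1 - σ ^ 2)) ^ 8 := by
        have : Pool.Agent.W737.SQ.Car Ω (γ σ) (fderiv ℂ f ((σ : ℂ) • u) u) ^ 8 =
          (Pool.Agent.W737.SQ.Car Ω (γ σ) (fderiv ℂ f ((σ : ℂ) • u) u) ^ 2) ^ 4 := by ring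
        rw [this, h6]
        rw [← one_div_pow, ← pow_mul]
      rw [h8]
      have h9 : s ^ 4 / 2 ≤ 1 - σ ^ 2 := by nlinarith
      refine pow_le_pow_left₀ (div_nonneg zero_le_one (by linarith)) ?_ 8
      rw [div_le_div_iff₀ (by linarith) hs40]
      linarith
    have h8 : c * ‖fderiv ℂ f ((σ : ℂ) • u) u‖ ^ 8 ≤
        ((16 / s ^ 4) ^ B * y) ^ 3 * (2 / s ^ 4) ^ 8 := by
      refine h5.trans ?_
      have h9 : h (γ σ) ^ 3 ≤ ((16 / s ^ 4) ^ B * y) ^ 3 := pow_le_pow_left₀ hγ0.le h4 3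
      have h10 : 0 ≤ Pool.Agent.W737.SQ.Car Ω (γ σ) (fderiv ℂ f ((σ : ℂ) • u) u) ^ 8 := by
        positivity
      exact mul_le_mul h9 h7 h10 (by positivity)
    have h9 : ((16 / s ^ 4) ^ B * y) ^ 3 * (2 / s ^ 4) ^ 8 ≤ c * (s ^ 9 / 4) ^ 8 := by
      have h10 : y ^ 3 ≤ (s ^ (4 * B + 35)) ^ 3 := pow_le_pow_left₀ hy.le hys 3
      have h11 : ((16 / s ^ 4) ^ B * y) ^ 3 * (2 / s ^ 4) ^ 8 =
          ((16 / s ^ 4) ^ B) ^ 3 * (2 / s ^ 4) ^ 8 * y ^ 3 := by ring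
      rw [h11]
      refine (mul_le_mul_of_nonneg_left h10 (by positivity)).trans ?_
      have h12 : ((16 / s ^ 4) ^ B) ^ 3 * (2 / s ^ 4) ^ 8 * (s ^ (4 * B + 35)) ^ 3 =
          (16 : ℝ) ^ (3 * B) * 2 ^ 8 * (s ^ 72 * s) := by
        have h13 : ((16 / s ^ 4) ^ B) ^ 3 = (16 : ℝ) ^ (3 * B) / s ^ (12 * B) := by
          rw [div_pow, div_pow, ← pow_mul, ← pow_mul, ← pow_mul]
          congr 2 <;> ring
        have h14 : (2 / s ^ 4) ^ 8 = 2 ^ 8 / s ^ 32 := by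
          rw [div_pow, ← pow_mul]
        have h15 : (s ^ (4 * B + 35)) ^ 3 = s ^ (12 * B) * s ^ 32 * (s ^ 72 * s) := by
          rw [← pow_mul, ← pow_add, ← pow_succ, ← pow_add]
          congr 1
          ring
        rw [h13, h14, h15]
        field_simp
      rw [h12]
      have h16 : s * K ≤ 1 := by
        rw [lt_div_iff₀ hK0] at hsK
        exact hsK.le
      have h17 : c * (s ^ 9 / 4) ^ 8 = c * s ^ 72 / 4 ^ 8 := by ring
      rw [h17, le_div_iff₀ (by norm_num)]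
      have h18 : (16 : ℝ) ^ (3 * B) * 2 ^ 8 * (s ^ 72 * s) * 4 ^ 8 = c * s ^ 72 * (s * K) := by
        rw [hK]
        field_simp
      rw [h18]
      exact mul_le_of_le_one_right (by positivity) h16
    have h10 : ‖fderiv ℂ f ((σ : ℂ) • u) u‖ ^ 8 ≤ (s ^ 9 / 4) ^ 8 :=
      le_of_mul_le_mul_left (h8.trans h9) hc
    exact le_of_pow_le_pow_left₀ (by norm_num) (by positivity) h10
  -- derivative of the path
  have hdγ : ∀ σ : ℝ, 0 ≤ σ → σ ≤ ‖x‖ →
      HasDerivAt γ (fderiv ℂ f ((σ : ℂ) • u) u) σ := fun σ h3 h4 =>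
    hasDeriv_ray hf u hu σ h3 (by linarith)
  have hγ0 : γ 0 = z := by
    rw [hγ]
    show f (((0 : ℝ) : ℂ) • u) = z
    rw [Complex.ofReal_zero, zero_smul]
    exact hf.base
  have hcont : ContinuousOn γ (Icc 0 ‖x‖) := fun σ hσ =>
    (hdγ σ hσ.1 hσ.2).continuousAt.continuousWithinAt
  -- the mean value inequality up to b
  have hmv : ∀ b : ℝ, 0 ≤ b → b ≤ ‖x‖ → (∀ t : ℝ, 0 ≤ t → t < b → ‖γ t - p‖ < r) →
      ‖γ b - p‖ ≤ s ^ 9 / 2 := by
    intro b hb0 hbx hbr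
    have h3 := norm_image_sub_le_of_norm_deriv_right_le_segment (f := γ) (a := 0) (b := b)
      (f' := fun σ => fderiv ℂ f ((σ : ℂ) • u) u) (C := s ^ 9 / 4)
      (hcont.mono (Icc_subset_Icc_right hbx))
      (fun σ hσ => (hdγ σ hσ.1 (hσ.2.le.trans hbx)).hasDerivWithinAt)
      (fun σ hσ => hder σ hσ.1 (hσ.2.le.trans hbx) fun t ht0 htσ =>
        hbr t ht0 (lt_of_le_of_lt htσ hσ.2)) b (right_mem_Icc.2 hb0)
    rw [hγ0] at h3
    have h4 : γ b - p = (γ b - z) + (z - p) := by abel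
    have h5 : s ^ 9 / 4 * (b - 0) ≤ s ^ 9 / 4 := by
      refine mul_le_of_le_one_right (by positivity) ?_
      linarith
    calc ‖γ b - p‖ ≤ ‖γ b - z‖ + ‖z - p‖ := by
          rw [h4]
          exact norm_add_le _ _
      _ ≤ s ^ 9 / 2 := by
          rw [hzp]
          linarith
  -- bootstrapping
  have hall : ∀ t : ℝ, 0 ≤ t → t ≤ ‖x‖ → ‖γ t - p‖ < r := by
    by_contra hcon
    push Not at hcon
    obtain ⟨t₀, ht1, ht2, ht3⟩ := hcon
    set S : Set ℝ := Icc 0 ‖x‖ ∩ (fun t => ‖γ t - p‖) ⁻¹' (Ici r) with hS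
    have hSc : IsCompact S := by
      refine isCompact_Icc.of_isClosed_subset ?_ inter_subset_left
      exact (hcont.sub continuousOn_const).norm.preimage_isClosed_of_isClosed isClosed_Icc
        isClosed_Ici
    obtain ⟨b, hb1, hb2⟩ := hSc.exists_isLeast ⟨t₀, ⟨ht1, ht2⟩, ht3⟩
    have h3 := hmv b hb1.1.1 hb1.1.2 (by
      intro t ht0 htb
      by_contra hc2
      push Not at hc2
      exact absurd (hb2 ⟨⟨ht0, htb.le.trans hb1.1.2⟩, hc2⟩) (not_le.2 htb))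
    have h4 : r ≤ ‖γ b - p‖ := hb1.2
    linarith
  have h3 := hmv ‖x‖ hxn.le le_rfl (fun t ht0 ht1 => hall t ht0 ht1.le)
  have h4 : γ ‖x‖ = f x := by
    rw [hγ]
    show f (((‖x‖ : ℝ) : ℂ) • u) = f x
    rw [hxu]
  rw [h4] at h3
  linarith

end Pool.Agent.W346.SB
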